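import Mathlib
import Pool.Agent.H54.ColBin

namespace Pool.Agent.Results.MP_8a294c_nt.Unbounded
open PowerSeries

/-- coefficient of `x^n` in `(1-x)^(-m) * prod_j (1-x^(2^j))^(-m)`; the factors with `j > n`
do not contribute -/
noncomputable def c (m n : ℕ) : ℤ :=
  coeff n ((mk 1 : ℤ⟦X⟧) ^ m *
    ∏ j ∈ Finset.range (n + 1), (mk fun i => if 2 ^ j ∣ i then 1 else 0 : ℤ⟦X⟧) ^ m)

/-- 2-adic valuation of `q - 1`, where `q` is the odd part of `c m n` -/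
noncomputable def u (m n : ℕ) : ℕ∞ := emultiplicity 2 (c m n / 2 ^ padicValInt 2 (c m n) - 1)

theorem result : ¬ ∀ k : ℕ, 1 ≤ k → ∃ C : ℕ, ∀ n : ℕ, 1 ≤ n → u (2 ^ (2 * k) - 1) n ≤ C := by
  intro h
  obtain ⟨C, hC⟩ := h 5 (by norm_num)
  obtain ⟨j, w, hw⟩ := Pool.Agent.H54.ColBin.main C
  have h1 := hC (64 * Pool.Agent.H54.ColBin.a j + 34) (by omega)
  have h2 : c (2 ^ (2 * 5) - 1) (64 * Pool.Agent.H54.ColBin.a j + 34)
      = 2 ^ 11 * (1 + 2 ^ (12 + C) * w) := by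
    rw [← hw, ← Pool.Agent.H54.ColBin.c_eq]; rfl
  have h3 : ¬ (2 : ℤ) ∣ 1 + 2 ^ (12 + C) * w := by
    rw [show (2 : ℤ) ^ (12 + C) * w = 2 * (2 ^ (11 + C) * w) by ring]; omega
  have h0 : (1 + 2 ^ (12 + C) * w : ℤ) ≠ 0 := fun h => h3 (h ▸ dvd_zero _)
  have h4 : padicValInt 2 (2 ^ 11 * (1 + 2 ^ (12 + C) * w)) = 11 := by
    rw [padicValInt.mul (by norm_num) h0, 
      padicValInt.eq_zero_of_not_dvd (p := 2) (z := 1 + 2 ^ (12 + C) * w) h3]
    have : padicValInt 2 (2 ^ 11) = 11 := by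
      unfold padicValInt
      exact padicValNat.prime_pow 11
    omega
  rw [u, h2, h4, Int.mul_ediv_cancel_left _ (by norm_num), add_sub_cancel_left] at h1
  have h5 := (le_emultiplicity_of_pow_dvd (dvd_mul_right ((2 : ℤ) ^ (12 + C)) w)).trans h1
  have : 12 + C ≤ C := by exact_mod_cast h5
  omega

end Pool.Agent.Results.MP_8a294c_nt.Unbounded
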